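import Pool.Agent.Y696.CTE.Stm
import Pool.Agent.Y715.T.Rs

/-!
# Ramification in the cubic extension `K(θ)`, `θ³ = D`
-/

set_option autoImplicit false

namespace Pool.Agent.Y655.CTE

open NumberField IsDedekindDomain WithZero
open Pool.Agent.Y692.QS (Ei w nr mul_re mul_im)
open Pool.Agent.Y696.CTE (Cub S_E6 S_RAMF)

/-! ### the square root of `-3` -/

/-- `√-3` -/
def lam : Ei := ⟨1, 2⟩

theorem lam_sq : lam * lam = -3 := by decide

theorem lam_dvd {α : Ei} : lam ∣ α ↔ (3 : ℤ) ∣ α.re + α.im := by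
  constructor
  · rintro ⟨β, rfl⟩
    refine ⟨β.re - β.im, ?_⟩
    rw [mul_re, mul_im]
    simp only [lam]
    ring
  · rintro ⟨c, hc⟩
    refine ⟨⟨α.im - c, α.im - 2 * c⟩, ?_⟩
    ext
    · rw [mul_re]
      simp only [lam]
      linarith
    · rw [mul_im]
      simp only [lam]
      ring

theorem three_dvd_mul {x y : ℤ} (h : (3 : ℤ) ∣ x * y) : (3 : ℤ) ∣ x ∨ (3 : ℤ) ∣ y :=
  Int.prime_three.dvd_or_dvd h

theorem three_re : (3 : Ei).re = 3 := by decide

theorem three_im : (3 : Ei).im = 0 := by decide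

theorem lam_ne : lam ≠ 0 := by
  intro h
  have := congrArg (fun z : Ei => z.re) h
  simp [lam] at this

theorem lam_prime : Prime lam := by
  refine ⟨lam_ne, ?_, ?_⟩
  · intro h
    have h1 : lam ∣ 1 := h.dvd
    rw [lam_dvd, QuadraticAlgebra.re_one, QuadraticAlgebra.im_one] at h1
    omega
  · intro a b h
    rw [lam_dvd, mul_re, mul_im] at h
    have h2 : (3 : ℤ) ∣ (a.re + a.im) * (b.re + b.im) := by
      obtain ⟨c, hc⟩ := h
      exact ⟨c + a.im * b.im, by linear_combination hc⟩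
    rcases three_dvd_mul h2 with h3 | h3
    · exact Or.inl (lam_dvd.2 h3)
    · exact Or.inr (lam_dvd.2 h3)

/-! ### valuations -/

section

variable {K F : Type} [Field K] [NumberField K] [Field F] [NumberField F] [Algebra K F]

theorem below_val (P : HeightOneSpectrum (𝓞 K)) (v : HeightOneSpectrum (𝓞 F))
    [v.asIdeal.LiesOver P.asIdeal] (x : 𝓞 K) (hx : P.intValuation x = exp (-1 : ℤ)) :
    v.intValuation (algebraMap (𝓞 K) (𝓞 F) x) =
      exp (-(P.asIdeal.ramificationIdx' v.asIdeal : ℤ)) := by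
  rw [← HeightOneSpectrum.intValuation_liesOver P v x, hx, ← exp_nsmul]
  congr 1
  simp

theorem below_le (hdeg : Module.finrank K F = 3) (P : HeightOneSpectrum (𝓞 K))
    (v : HeightOneSpectrum (𝓞 F)) [v.asIdeal.LiesOver P.asIdeal] :
    P.asIdeal.ramificationIdx' v.asIdeal ≤ 3 := by
  have hP := P.isMaximal
  have hv := v.isPrime
  have hz : NoZeroSMulDivisors (𝓞 K) (𝓞 F) := by
    refine ⟨fun {c x} h => ?_⟩
    rw [Algebra.smul_def, mul_eq_zero] at h
    rcases h with h | h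
    · left
      exact FaithfulSMul.algebraMap_injective (𝓞 K) (𝓞 F) (by rw [h, map_zero])
    · exact Or.inr h
  rw [← hdeg]
  exact Ideal.ramificationIdx_le_finrank (𝓞 F) K F v.asIdeal

/-- cube roots of `exp (-e)` -/
theorem cube_exp {a : ℤᵐ⁰} {e : ℤ} (h : a ^ 3 = exp (-e)) : (3 : ℤ) ∣ e := by
  have ha : a ≠ 0 := by
    rintro rfl
    rw [zero_pow (by norm_num)] at h
    exact exp_ne_zero h.symm
  have h2 := congrArg log h
  rw [log_pow, log_exp, nsmul_eq_mul] at h2
  exact ⟨-log a, by push_cast at h2; linarith⟩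

end

/-- **the ramification index of the primes above three** -/
theorem e6 : S_E6 := by
  intro K F _ _ _ _ _ j D θ hC h3 h9 v hv
  obtain ⟨m, hm⟩ := h3
  have hre : D.re = 1 + 3 * m.re := by
    have := congrArg (fun z : Ei => z.re) hm
    simp only [QuadraticAlgebra.re_sub, QuadraticAlgebra.re_one] at this
    rw [mul_re, three_re, three_im] at this
    linarith
  have him : D.im = 3 * m.im := by
    have := congrArg (fun z : Ei => z.im) hm
    simp only [QuadraticAlgebra.im_sub, QuadraticAlgebra.im_one] at this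
    rw [mul_im, three_re, three_im] at this
    linarith
  have hm0 : ¬ (3 : ℤ) ∣ m.re + m.im := by
    rintro ⟨c, hc⟩
    apply h9
    have hx : m.re = 3 * c - m.im := by linarith
    refine ⟨(m.re ^ 2 - m.re * m.im + m.im ^ 2) + 2 * c - m.im, ?_⟩
    unfold nr
    rw [hre, him, hx]
    ring
  have hdvd : lam ∣ m ^ 2 - 1 := by
    rw [lam_dvd]
    have h1 : (m ^ 2 - 1).re + (m ^ 2 - 1).im =
        (m.re + m.im - 1) * (m.re + m.im + 1) - 3 * m.im ^ 2 := by
      rw [pow_two, QuadraticAlgebra.re_sub, QuadraticAlgebra.im_sub, mul_re, mul_im,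
        QuadraticAlgebra.re_one, QuadraticAlgebra.im_one]
      ring
    rw [h1]
    refine dvd_sub ?_ ⟨_, rfl⟩
    have h2 : (3 : ℤ) ∣ (m.re + m.im - 1) ∨ (3 : ℤ) ∣ (m.re + m.im + 1) := by omega
    rcases h2 with h2 | h2
    · exact h2.mul_right _
    · exact h2.mul_left _
  obtain ⟨q, hq⟩ := hdvd
  set R1 := algebraMap (𝓞 K) (𝓞 F) with hR1
  have hLsq : R1 (j lam) * R1 (j lam) = -3 := by
    rw [← map_mul, ← map_mul, lam_sq, map_neg, map_neg, map_ofNat, map_ofNat]
  have hLv : R1 (j lam) ∈ v.asIdeal := by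
    have h1 : R1 (j lam) * R1 (j lam) ∈ v.asIdeal := by
      rw [hLsq]
      exact neg_mem hv
    rcases v.isPrime.mem_or_mem h1 with h | h <;> exact h
  have hmv : R1 (j m) ∉ v.asIdeal := by
    intro h
    have h1 : R1 (j m) ^ 2 - 1 ∈ v.asIdeal := by
      have : R1 (j m) ^ 2 - 1 = R1 (j lam) * R1 (j q) := by
        rw [← map_mul, ← map_mul, ← hq, map_sub, map_sub, map_pow, map_pow, map_one, map_one]
      rw [this]
      exact Ideal.mul_mem_right _ _ hLv
    have h2 : (1 : 𝓞 F) ∈ v.asIdeal := by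
      have : (1 : 𝓞 F) = R1 (j m) * R1 (j m) - (R1 (j m) ^ 2 - 1) := by ring
      rw [this]
      exact sub_mem (Ideal.mul_mem_right _ _ h) h1
    exact v.isPrime.ne_top ((Ideal.eq_top_iff_one _).2 h2)
  -- the prime below
  have hjp : Prime (j lam) := (MulEquiv.prime_iff j.toMulEquiv).2 lam_prime
  let P : HeightOneSpectrum (𝓞 K) := ⟨Ideal.span {j lam}, (Ideal.span_singleton_prime hjp.ne_zero).2 hjp,
    by rw [Ne, Ideal.span_singleton_eq_bot]; exact hjp.ne_zero⟩
  have hlies : v.asIdeal.LiesOver P.asIdeal := by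
    constructor
    refine P.isMaximal.eq_of_le ?_ ?_
    · exact Ideal.comap_ne_top _ v.isPrime.ne_top
    · show Ideal.span {j lam} ≤ _
      rw [Ideal.span_singleton_le_iff_mem]
      exact hLv
  have hPval : P.intValuation (j lam) = exp (-1 : ℤ) :=
    P.intValuation_singleton hjp.ne_zero rfl
  obtain ⟨e, he⟩ : ∃ e, e = P.asIdeal.ramificationIdx' v.asIdeal := ⟨_, rfl⟩
  have hval : v.intValuation (R1 (j lam)) = exp (-(e : ℤ)) := by
    rw [he]
    exact below_val P v (j lam) hPval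
  have he3 : e ≤ 3 := by
    rw [he]
    exact below_le hC.deg P v
  have h3val : v.intValuation (3 : 𝓞 F) = exp (-(2 * e : ℤ)) := by
    have h1 : v.intValuation (-3 : 𝓞 F) = exp (-(2 * e : ℤ)) := by
      rw [← hLsq, map_mul, hval, ← exp_add]
      congr 1
      ring
    rwa [Valuation.map_neg] at h1
  have he0 : 0 < e := by
    by_contra hc
    have h0 : e = 0 := by omega
    have h1 := (v.intValuation_lt_one_iff_mem _).2 hLv
    rw [hval, h0] at h1
    simp at h1
  -- the element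
  obtain ⟨t, ht⟩ : ∃ t : 𝓞 F, t = θ - 1 := ⟨_, rfl⟩
  have hrel : t ^ 3 = 3 * R1 (j m) - 3 * (t ^ 2 + t) := by
    have h1 : θ ^ 3 = 1 + 3 * R1 (j m) := by
      rw [hC.cube, ← hR1]
      have h2 : D = 1 + 3 * m := by rw [← hm]; ring
      rw [h2, map_add, map_add, map_mul, map_mul, map_one, map_one, map_ofNat, map_ofNat]
    have h2 : t ^ 3 + 3 * (t ^ 2 + t) = θ ^ 3 - 1 := by rw [ht]; ring
    rw [eq_sub_iff_add_eq, h2, h1]
    ring
  have htv : t ∈ v.asIdeal := by
    have h1 : t ^ 3 ∈ v.asIdeal := by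
      rw [hrel]
      exact sub_mem (Ideal.mul_mem_right _ _ hv) (Ideal.mul_mem_right _ _ hv)
    exact v.isPrime.mem_of_pow_mem _ h1
  have hs : v.intValuation (t ^ 2 + t) < 1 := by
    rw [v.intValuation_lt_one_iff_mem]
    have : t ^ 2 + t = t * (t + 1) := by ring
    rw [this]
    exact Ideal.mul_mem_right _ _ htv
  have hm1 : v.intValuation (R1 (j m)) = 1 := HeightOneSpectrum.intValuation_eq_one_iff.2 hmv
  have hlt : v.intValuation (3 * (t ^ 2 + t)) < v.intValuation (3 * R1 (j m)) := by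
    rw [map_mul, map_mul, hm1, mul_one]
    have h30 : 0 < v.intValuation (3 : 𝓞 F) := by
      rw [h3val]
      exact exp_pos
    calc v.intValuation (3 : 𝓞 F) * v.intValuation (t ^ 2 + t)
        < v.intValuation (3 : 𝓞 F) * 1 := by
          exact mul_lt_mul_of_pos_left hs h30
      _ = _ := mul_one _
  have hcube : v.intValuation t ^ 3 = exp (-(2 * e : ℤ)) := by
    rw [← map_pow, hrel, Valuation.map_sub_eq_of_lt_left _ hlt, map_mul, hm1, mul_one, h3val]
  have hd := cube_exp hcube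
  have he : e = 3 := by omega
  have h4 : v.valuation F (3 : F) = v.intValuation (3 : 𝓞 F) := by
    have h5 : algebraMap (𝓞 F) F 3 = 3 := map_ofNat _ 3
    have h6 := HeightOneSpectrum.valuation_of_algebraMap (K := F) v (3 : 𝓞 F)
    rw [← h6]
    exact congrArg (v.valuation F) h5.symm
  rw [h4, h3val, he]
  norm_num

/-- **total ramification** -/
theorem ramf : S_RAMF := by
  classical
  intro K F _ _ _ _ _ j D θ hC hsq P hP
  have hpid : IsPrincipalIdealRing (𝓞 K) :=
    IsPrincipalIdealRing.of_surjective (j : Ei →+* 𝓞 K) j.surjective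
  obtain ⟨p, hp⟩ := (IsPrincipalIdealRing.principal P.asIdeal).principal
  rw [Ideal.submodule_span_eq] at hp
  have hp0 : p ≠ 0 := by
    rintro rfl
    apply P.ne_bot
    rw [hp]
    simp
  have hpp : Prime p := (Ideal.span_singleton_prime hp0).1 (hp ▸ P.isPrime)
  obtain ⟨c, hc⟩ : p ∣ j D := by
    rw [hp] at hP
    exact Ideal.mem_span_singleton.1 hP
  have hpc : c ∉ P.asIdeal := by
    intro h
    rw [hp, Ideal.mem_span_singleton] at h
    obtain ⟨c', hc'⟩ := h
    have h1 : j.symm p * j.symm p ∣ D := by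
      refine ⟨j.symm c', ?_⟩
      apply j.injective
      rw [map_mul, map_mul, j.apply_symm_apply, j.apply_symm_apply, hc, hc']
      ring
    have h2 := hsq _ h1
    exact hpp.not_unit ((MulEquiv.isUnit_map j.symm.toMulEquiv).1 h2)
  have hPval : P.intValuation (j D) = exp (-1 : ℤ) := by
    rw [hc, map_mul, P.intValuation_singleton hp0 hp, HeightOneSpectrum.intValuation_eq_one_iff.2 hpc,
      mul_one]
  have hmax := P.isMaximal
  have key : ∀ Q ∈ IsDedekindDomain.primesOverFinset P.asIdeal (𝓞 F),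
      3 ∣ P.asIdeal.ramificationIdx' Q ∧ 0 < P.asIdeal.ramificationIdx' Q ∧
        0 < P.asIdeal.inertiaDeg' Q := by
    intro Q hQ
    obtain ⟨hQ1, hQ2⟩ := (IsDedekindDomain.mem_primesOverFinset_iff P.ne_bot (B := 𝓞 F)).1 hQ
    have hQ0 : Q ≠ ⊥ := Ideal.ne_bot_of_liesOver_of_ne_bot P.ne_bot Q
    let v : HeightOneSpectrum (𝓞 F) := ⟨Q, hQ1, hQ0⟩
    have hv : v.asIdeal.LiesOver P.asIdeal := hQ2
    have h1 := below_val P v (j D) hPval
    rw [← hC.cube, map_pow] at h1
    have h2 := cube_exp h1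
    refine ⟨by exact_mod_cast h2, ?_, Ideal.inertiaDeg'_pos _ _⟩
    exact Nat.pos_of_ne_zero (Ideal.IsDedekindDomain.ramificationIdx'_ne_zero_of_liesOver Q P.ne_bot)
  have hsum := Ideal.sum_ramification_inertia (𝓞 F) K F (p := P.asIdeal) P.ne_bot
  rw [hC.deg] at hsum
  have hge : ∀ Q ∈ IsDedekindDomain.primesOverFinset P.asIdeal (𝓞 F),
      3 ≤ P.asIdeal.ramificationIdx' Q * P.asIdeal.inertiaDeg' Q := by
    intro Q hQ
    obtain ⟨h1, h2, h3⟩ := key Q hQ
    have h4 := Nat.le_of_dvd h2 h1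
    exact h4.trans (Nat.le_mul_of_pos_right _ h3)
  have hcard : (IsDedekindDomain.primesOverFinset P.asIdeal (𝓞 F)).card = 1 := by
    have h1 := Finset.card_nsmul_le_sum _ _ 3 hge
    rw [hsum, smul_eq_mul] at h1
    have h2 : (IsDedekindDomain.primesOverFinset P.asIdeal (𝓞 F)).card ≠ 0 := by
      intro h0
      rw [Finset.card_eq_zero] at h0
      rw [h0, Finset.sum_empty] at hsum
      omega
    omega
  obtain ⟨Q, hQ⟩ := Finset.card_eq_one.1 hcard
  have hQm : Q ∈ IsDedekindDomain.primesOverFinset P.asIdeal (𝓞 F) := by rw [hQ]; simp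
  obtain ⟨hQ1, hQ2⟩ := (IsDedekindDomain.mem_primesOverFinset_iff P.ne_bot (B := 𝓞 F)).1 hQm
  have hQ0 : Q ≠ ⊥ := Ideal.ne_bot_of_liesOver_of_ne_bot P.ne_bot Q
  obtain ⟨k1, k2, k3⟩ := key Q hQm
  rw [hQ, Finset.sum_singleton] at hsum
  have hf : P.asIdeal.inertiaDeg' Q = 1 := by
    have h4 := Nat.le_of_dvd k2 k1
    nlinarith
  refine ⟨⟨Q, hQ1, hQ0⟩, ?_, ?_⟩
  · intro u
    constructor
    · intro hu
      have h1 : u.asIdeal ∈ IsDedekindDomain.primesOverFinset P.asIdeal (𝓞 F) :=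
        (IsDedekindDomain.mem_primesOverFinset_iff P.ne_bot (B := 𝓞 F)).2
          ⟨u.isPrime, ⟨hu.symm⟩⟩
      rw [hQ, Finset.mem_singleton] at h1
      exact HeightOneSpectrum.ext h1
    · rintro rfl
      exact hQ2.over.symm
  · show Nat.card (𝓞 F ⧸ Q) = Nat.card (𝓞 K ⧸ P.asIdeal)
    rw [Ideal.inertiaDeg'_algebraMap] at hf
    let _ : Field (𝓞 K ⧸ P.asIdeal) := Ideal.Quotient.field P.asIdeal
    have := Module.natCard_eq_pow_finrank (K := 𝓞 K ⧸ P.asIdeal) (V := 𝓞 F ⧸ Q)
    rw [this, hf, pow_one]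

end Pool.Agent.Y655.CTE
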